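import Mathlib

/-!
# MP_645dd0_co: minimum `K_3^3`-saturated graphs of even order are not unique

For even `n ≥ 8` let `G n` be the join of one vertex with the disjoint union of a star `K_{1,4}`
and `(n - 6) / 2` edges. It is `K_3^3`-saturated, has as many edges as
`H n = K_1 ∨ ((n - 4) / 2 K_2 ∪ K_3)` and is not isomorphic to `H n`.
-/

set_option autoImplicit false

namespace Pool.Agent.Results.MP_645dd0_co.NotUnique

/-- `K_3^3`: the triangle `0, 1, 2` with the pendant vertices `3, 4, 5` attached to `0, 1, 2`. -/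
def K33 : SimpleGraph (Fin 6) :=
  SimpleGraph.fromEdgeSet {s(0, 1), s(1, 2), s(0, 2), s(0, 3), s(1, 4), s(2, 5)}

/-- `G` is `F`-saturated. -/
def IsSaturated {m n : ℕ} (F : SimpleGraph (Fin m)) (G : SimpleGraph (Fin n)) : Prop :=
  ¬ F.IsContained G ∧
    ∀ u v : Fin n, u ≠ v → ¬ G.Adj u v → F.IsContained (G ⊔ SimpleGraph.edge u v)

/-- The saturation number `sat(n, F)`. -/
noncomputable def sat {m : ℕ} (n : ℕ) (F : SimpleGraph (Fin m)) : ℕ :=
  sInf {k : ℕ | ∃ G : SimpleGraph (Fin n), IsSaturated F G ∧ G.edgeSet.ncard = k}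

/-- `G` (a graph on `Fin n`) is a minimum `F`-saturated graph: `G` belongs to `SAT(n, F)`. -/
def InSAT {m n : ℕ} (F : SimpleGraph (Fin m)) (G : SimpleGraph (Fin n)) : Prop :=
  IsSaturated F G ∧ G.edgeSet.ncard = sat n F

/-- For even `n ≥ 4`: the graph `H_n = K_1 ∨ ((n - 4) / 2 K_2 ∪ K_3)`. Vertex `0` is adjacent to all
others, `1, 2, 3` form the triangle and `(4, 5), (6, 7), …` are the disjoint edges. -/
def H (n : ℕ) : SimpleGraph (Fin n) where
  Adj u v := u ≠ v ∧ (u.val = 0 ∨ v.val = 0 ∨ (u.val ≤ 3 ∧ v.val ≤ 3) ∨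
    (4 ≤ u.val ∧ 4 ≤ v.val ∧ u.val / 2 = v.val / 2))
  symm := ⟨fun u v h => ⟨h.1.symm, by have := h.2; omega⟩⟩
  loopless := ⟨fun u h => h.1 rfl⟩

/-- For even `n ≥ 8`: the graph `K_1 ∨ (K_{1,4} ∪ (n - 6) / 2 K_2)`. Vertex `0` is adjacent to all
others, `1` is the centre of the star with leaves `2, 3, 4, 5` and `(6, 7), (8, 9), …` are the
disjoint edges. -/
def G (n : ℕ) : SimpleGraph (Fin n) where
  Adj u v := u ≠ v ∧ (u.val = 0 ∨ v.val = 0 ∨ (u.val = 1 ∧ v.val ≤ 5) ∨ (v.val = 1 ∧ u.val ≤ 5) ∨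
    (6 ≤ u.val ∧ 6 ≤ v.val ∧ u.val / 2 = v.val / 2))
  symm := ⟨fun u v h => ⟨h.1.symm, by have := h.2; omega⟩⟩
  loopless := ⟨fun u h => h.1 rfl⟩

lemma G_adj {n : ℕ} (u v : Fin n) : (G n).Adj u v ↔ (u ≠ v ∧ (u.val = 0 ∨ v.val = 0 ∨
    (u.val = 1 ∧ v.val ≤ 5) ∨ (v.val = 1 ∧ u.val ≤ 5) ∨
    (6 ≤ u.val ∧ 6 ≤ v.val ∧ u.val / 2 = v.val / 2))) := Iff.rfl

lemma no_triangle {n : ℕ} (a b c : Fin n) (ha : a.val ≠ 0) (hb : b.val ≠ 0) (hc : c.val ≠ 0)
    (hab : (G n).Adj a b) (hbc : (G n).Adj b c) (hac : (G n).Adj a c) : False := by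
  rw [G_adj, ne_eq, Fin.ext_iff] at hab hbc hac
  omega

/-- In `G n` an edge without the vertex `0` has an end with no further neighbour. -/
lemma low {n : ℕ} (x y : Fin n) (hx : x.val ≠ 0) (hy : y.val ≠ 0) (h : (G n).Adj x y) :
    (∀ z, (G n).Adj x z → z.val = 0 ∨ z = y) ∨ (∀ z, (G n).Adj y z → z.val = 0 ∨ z = x) := by
  by_cases h1 : x.val = 1
  · right
    intro z hz
    rw [G_adj, ne_eq, Fin.ext_iff] at h hz
    rw [Fin.ext_iff]
    omega
  · left
    intro z hz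
    rw [G_adj, ne_eq, Fin.ext_iff] at h hz
    rw [Fin.ext_iff]
    omega

lemma free (n : ℕ) : ¬ K33.IsContained (G n) := by
  rintro ⟨f⟩
  have hinj : ∀ i j : Fin 6, i ≠ j → f i ≠ f j := fun i j h h' => h (f.injective h')
  have hadj : ∀ i j : Fin 6, K33.Adj i j → (G n).Adj (f i) (f j) := fun i j h => f.toHom.map_adj h
  have k01 : K33.Adj 0 1 := by simp [K33]
  have k12 : K33.Adj 1 2 := by simp [K33]
  have k02 : K33.Adj 0 2 := by simp [K33]
  have k03 : K33.Adj 0 3 := by simp [K33]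
  have k14 : K33.Adj 1 4 := by simp [K33]
  have k25 : K33.Adj 2 5 := by simp [K33]
  have a01 := hadj _ _ k01
  have a12 := hadj _ _ k12
  have a02 := hadj _ _ k02
  have a03 := hadj _ _ k03
  have a14 := hadj _ _ k14
  have a25 := hadj _ _ k25
  -- one of the three triangle vertices is the vertex 0
  have key : ∀ x y x' y' z : Fin n, z.val = 0 → x ≠ z → y ≠ z → x' ≠ z → y' ≠ z → x' ≠ y →
      y' ≠ x → (G n).Adj x y → (G n).Adj x x' → (G n).Adj y y' → False := by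
    intro x y x' y' z hz hxz hyz hx'z hy'z hx'y hy'x hxy hxx' hyy'
    have hx : x.val ≠ 0 := fun h => hxz (Fin.ext (h.trans hz.symm))
    have hy : y.val ≠ 0 := fun h => hyz (Fin.ext (h.trans hz.symm))
    rcases low x y hx hy hxy with h | h
    · rcases h x' hxx' with h | h
      · exact hx'z (Fin.ext (h.trans hz.symm))
      · exact hx'y h
    · rcases h y' hyy' with h | h
      · exact hy'z (Fin.ext (h.trans hz.symm))
      · exact hy'x h
  by_cases h0 : (f 0).val = 0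
  · exact key (f 1) (f 2) (f 4) (f 5) (f 0) h0 (hinj _ _ (by decide)) (hinj _ _ (by decide))
      (hinj _ _ (by decide)) (hinj _ _ (by decide)) (hinj _ _ (by decide)) (hinj _ _ (by decide))
      a12 a14 a25
  by_cases h1 : (f 1).val = 0
  · exact key (f 0) (f 2) (f 3) (f 5) (f 1) h1 (hinj _ _ (by decide)) (hinj _ _ (by decide))
      (hinj _ _ (by decide)) (hinj _ _ (by decide)) (hinj _ _ (by decide)) (hinj _ _ (by decide))
      a02 a03 a25
  by_cases h2 : (f 2).val = 0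
  · exact key (f 0) (f 1) (f 3) (f 4) (f 2) h2 (hinj _ _ (by decide)) (hinj _ _ (by decide))
      (hinj _ _ (by decide)) (hinj _ _ (by decide)) (hinj _ _ (by decide)) (hinj _ _ (by decide))
      a01 a03 a14
  exact no_triangle _ _ _ h0 h1 h2 a01 a12 a02

lemma contained {n : ℕ} (K : SimpleGraph (Fin n)) (a b c a' b' c' : Fin n)
    (hab : K.Adj a b) (hbc : K.Adj b c) (hac : K.Adj a c) (haa : K.Adj a a') (hbb : K.Adj b b')
    (hcc : K.Adj c c') (hd : [a, b, c, a', b', c'].Nodup) : K33.IsContained K := by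
  refine ⟨⟨⟨![a, b, c, a', b', c'], ?_⟩, ?_⟩⟩
  · intro i j hij
    rw [K33, SimpleGraph.fromEdgeSet_adj] at hij
    obtain ⟨hij, -⟩ := hij
    simp only [Set.mem_insert_iff, Set.mem_singleton_iff, Sym2.eq_iff] at hij
    rcases hij with (⟨rfl, rfl⟩ | ⟨rfl, rfl⟩) | (⟨rfl, rfl⟩ | ⟨rfl, rfl⟩) | (⟨rfl, rfl⟩ | ⟨rfl, rfl⟩)
      | (⟨rfl, rfl⟩ | ⟨rfl, rfl⟩) | (⟨rfl, rfl⟩ | ⟨rfl, rfl⟩) | (⟨rfl, rfl⟩ | ⟨rfl, rfl⟩)
    · exact hab
    · exact hab.symm
    · exact hbc
    · exact hbc.symm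
    · exact hac
    · exact hac.symm
    · exact haa
    · exact haa.symm
    · exact hbb
    · exact hbb.symm
    · exact hcc
    · exact hcc.symm
  · have : Function.Injective (fun i : Fin 6 => [a, b, c, a', b', c'].get i) :=
      List.nodup_iff_injective_get.1 hd
    intro i j hij
    apply this
    fin_cases i <;> fin_cases j <;> first | rfl | simpa using hij

lemma sup_adj_left {n : ℕ} {K : SimpleGraph (Fin n)} {u v x y : Fin n} (h : K.Adj x y) :
    (K ⊔ SimpleGraph.edge u v).Adj x y := Or.inl h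

lemma sup_adj_new {n : ℕ} (K : SimpleGraph (Fin n)) {u v : Fin n} (h : u ≠ v) :
    (K ⊔ SimpleGraph.edge u v).Adj u v := by
  right
  rw [SimpleGraph.edge_adj]
  exact ⟨Or.inl ⟨rfl, rfl⟩, h⟩

lemma saturated_aux (n : ℕ) (hn : Even n) (h8 : 8 ≤ n) (u v : Fin n) (huv : u.val < v.val)
    (hna : ¬ (G n).Adj u v) : K33.IsContained (G n ⊔ SimpleGraph.edge u v) := by
  obtain ⟨m, hm⟩ := hn
  have hu0 : u.val ≠ 0 := by
    intro h
    apply hna
    rw [G_adj, ne_eq, Fin.ext_iff]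
    omega
  have hne : u ≠ v := fun h => by rw [h] at huv; omega
  -- partner of a vertex in a disjoint edge
  have hpar : ∀ w : Fin n, 6 ≤ w.val → ∃ w' : Fin n, 6 ≤ w'.val ∧ w'.val ≠ w.val ∧
      w'.val / 2 = w.val / 2 := by
    intro w hw
    rcases Nat.even_or_odd w.val with h | h
    · obtain ⟨t, ht⟩ := h
      refine ⟨⟨w.val + 1, ?_⟩, ?_, ?_, ?_⟩
      · have := w.2; omega
      · show 6 ≤ w.val + 1; omega
      · show w.val + 1 ≠ w.val; omega
      · show (w.val + 1) / 2 = w.val / 2; omega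
    · obtain ⟨t, ht⟩ := h
      refine ⟨⟨w.val - 1, ?_⟩, ?_, ?_, ?_⟩
      · have := w.2; omega
      · show 6 ≤ w.val - 1; omega
      · show w.val - 1 ≠ w.val; omega
      · show (w.val - 1) / 2 = w.val / 2; omega
  have z : ∀ k : ℕ, k < 8 → ∃ w : Fin n, w.val = k := fun k hk => ⟨⟨k, by omega⟩, rfl⟩
  obtain ⟨w0, hw0⟩ := z 0 (by norm_num)
  obtain ⟨w1, hw1⟩ := z 1 (by norm_num)
  obtain ⟨w2, hw2⟩ := z 2 (by norm_num)
  obtain ⟨w3, hw3⟩ := z 3 (by norm_num)
  by_cases h5 : v.val ≤ 5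
  · -- two leaves of the star
    have hu2 : 2 ≤ u.val := by
      by_contra h
      apply hna
      rw [G_adj, ne_eq, Fin.ext_iff]
      omega
    obtain ⟨w, hw⟩ : ∃ w : Fin n, 2 ≤ w.val ∧ w.val ≤ 5 ∧ w.val ≠ u.val ∧ w.val ≠ v.val := by
      by_cases h2 : u.val = 2
      · by_cases h3 : v.val = 3
        · exact ⟨⟨4, by omega⟩, by simp; omega⟩
        · exact ⟨⟨3, by omega⟩, by simp; omega⟩
      · exact ⟨⟨2, by omega⟩, by simp; omega⟩
    obtain ⟨w6, hw6⟩ := z 6 (by norm_num)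
    refine contained _ w0 w1 u w6 w v (sup_adj_left ?_) (sup_adj_left ?_) (sup_adj_left ?_)
      (sup_adj_left ?_) (sup_adj_left ?_) (sup_adj_new _ hne) ?_
    · rw [G_adj, ne_eq, Fin.ext_iff]; omega
    · rw [G_adj, ne_eq, Fin.ext_iff]; omega
    · rw [G_adj, ne_eq, Fin.ext_iff]; omega
    · rw [G_adj, ne_eq, Fin.ext_iff]; omega
    · rw [G_adj, ne_eq, Fin.ext_iff]; omega
    · simp only [List.nodup_cons, List.mem_cons, List.not_mem_nil, or_false, not_or, Fin.ext_iff,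
        not_false_eq_true, List.nodup_nil, and_true]
      omega
  · have hv6 : 6 ≤ v.val := by omega
    obtain ⟨v', hv'⟩ := hpar v hv6
    by_cases h1 : u.val = 1
    · -- the centre of the star and a vertex of a disjoint edge
      refine contained _ w0 u v w2 w3 v' (sup_adj_left ?_) (sup_adj_new _ hne) (sup_adj_left ?_)
        (sup_adj_left ?_) (sup_adj_left ?_) (sup_adj_left ?_) ?_
      · rw [G_adj, ne_eq, Fin.ext_iff]; omega
      · rw [G_adj, ne_eq, Fin.ext_iff]; omega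
      · rw [G_adj, ne_eq, Fin.ext_iff]; omega
      · rw [G_adj, ne_eq, Fin.ext_iff]; omega
      · rw [G_adj, ne_eq, Fin.ext_iff]; omega
      · simp only [List.nodup_cons, List.mem_cons, List.not_mem_nil, or_false, not_or, Fin.ext_iff,
          not_false_eq_true, List.nodup_nil, and_true]
        omega
    · by_cases hu5 : u.val ≤ 5
      · -- a leaf of the star and a vertex of a disjoint edge
        obtain ⟨w, hw⟩ : ∃ w : Fin n, 2 ≤ w.val ∧ w.val ≤ 5 ∧ w.val ≠ u.val := by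
          by_cases h2 : u.val = 2
          · exact ⟨⟨3, by omega⟩, by simp; omega⟩
          · exact ⟨⟨2, by omega⟩, by simp; omega⟩
        refine contained _ w0 w1 u v' w v (sup_adj_left ?_) (sup_adj_left ?_) (sup_adj_left ?_)
          (sup_adj_left ?_) (sup_adj_left ?_) (sup_adj_new _ hne) ?_
        · rw [G_adj, ne_eq, Fin.ext_iff]; omega
        · rw [G_adj, ne_eq, Fin.ext_iff]; omega
        · rw [G_adj, ne_eq, Fin.ext_iff]; omega
        · rw [G_adj, ne_eq, Fin.ext_iff]; omega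
        · rw [G_adj, ne_eq, Fin.ext_iff]; omega
        · simp only [List.nodup_cons, List.mem_cons, List.not_mem_nil, or_false, not_or,
            Fin.ext_iff, not_false_eq_true, List.nodup_nil, and_true]
          omega
      · -- vertices of two disjoint edges
        obtain ⟨u', hu'⟩ := hpar u (by omega)
        have hdiff : u.val / 2 ≠ v.val / 2 := by
          intro h
          apply hna
          rw [G_adj, ne_eq, Fin.ext_iff]
          omega
        refine contained _ w0 u v w1 u' v' (sup_adj_left ?_) (sup_adj_new _ hne) (sup_adj_left ?_)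
          (sup_adj_left ?_) (sup_adj_left ?_) (sup_adj_left ?_) ?_
        · rw [G_adj, ne_eq, Fin.ext_iff]; omega
        · rw [G_adj, ne_eq, Fin.ext_iff]; omega
        · rw [G_adj, ne_eq, Fin.ext_iff]; omega
        · rw [G_adj, ne_eq, Fin.ext_iff]; omega
        · rw [G_adj, ne_eq, Fin.ext_iff]; omega
        · simp only [List.nodup_cons, List.mem_cons, List.not_mem_nil, or_false, not_or,
            Fin.ext_iff, not_false_eq_true, List.nodup_nil, and_true]
          omega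

lemma saturated (n : ℕ) (hn : Even n) (h8 : 8 ≤ n) : IsSaturated K33 (G n) := by
  refine ⟨free n, fun u v huv hna => ?_⟩
  rcases lt_or_gt_of_ne (fun h => huv (Fin.ext h) : u.val ≠ v.val) with h | h
  · exact saturated_aux n hn h8 u v h hna
  · rw [SimpleGraph.edge_comm]
    exact saturated_aux n hn h8 v u h (fun h' => hna h'.symm)

/-- the common part of `G n` and `H n` -/
def C (n : ℕ) : SimpleGraph (Fin n) where
  Adj u v := u ≠ v ∧ (u.val = 0 ∨ v.val = 0 ∨ (6 ≤ u.val ∧ 6 ≤ v.val ∧ u.val / 2 = v.val / 2))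
  symm := ⟨fun u v h => ⟨h.1.symm, by have := h.2; omega⟩⟩
  loopless := ⟨fun u h => h.1 rfl⟩

lemma keyG (a b : ℕ) : (¬ a = b ∧ (a = 0 ∨ b = 0 ∨ (a = 1 ∧ b ≤ 5) ∨ (b = 1 ∧ a ≤ 5) ∨
    (6 ≤ a ∧ 6 ≤ b ∧ a / 2 = b / 2))) ↔
    ((¬ a = b ∧ (a = 0 ∨ b = 0 ∨ (6 ≤ a ∧ 6 ≤ b ∧ a / 2 = b / 2))) ∨
      ((a = 1 ∧ b = 2 ∨ a = 2 ∧ b = 1) ∨ (a = 1 ∧ b = 3 ∨ a = 3 ∧ b = 1) ∨
        (a = 1 ∧ b = 4 ∨ a = 4 ∧ b = 1) ∨ (a = 1 ∧ b = 5 ∨ a = 5 ∧ b = 1))) := by
  by_cases ha : a ≤ 5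
  · by_cases hb : b ≤ 5
    · interval_cases a <;> interval_cases b <;> simp
    · have h0 : b ≠ 0 := by omega
      have h1 : b ≠ 1 := by omega
      have h2 : b ≠ 2 := by omega
      have h3 : b ≠ 3 := by omega
      have h4 : b ≠ 4 := by omega
      have h5 : b ≠ 5 := by omega
      simp [h0, h1, h2, h3, h4, h5, hb]
  · have h0 : a ≠ 0 := by omega
    have h1 : a ≠ 1 := by omega
    have h2 : a ≠ 2 := by omega
    have h3 : a ≠ 3 := by omega
    have h4 : a ≠ 4 := by omega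
    have h5 : a ≠ 5 := by omega
    simp [h0, h1, h2, h3, h4, h5, ha]

lemma keyH (a b : ℕ) : (¬ a = b ∧ (a = 0 ∨ b = 0 ∨ (a ≤ 3 ∧ b ≤ 3) ∨
    (4 ≤ a ∧ 4 ≤ b ∧ a / 2 = b / 2))) ↔
    ((¬ a = b ∧ (a = 0 ∨ b = 0 ∨ (6 ≤ a ∧ 6 ≤ b ∧ a / 2 = b / 2))) ∨
      ((a = 1 ∧ b = 2 ∨ a = 2 ∧ b = 1) ∨ (a = 1 ∧ b = 3 ∨ a = 3 ∧ b = 1) ∨
        (a = 2 ∧ b = 3 ∨ a = 3 ∧ b = 2) ∨ (a = 4 ∧ b = 5 ∨ a = 5 ∧ b = 4))) := by
  by_cases ha : a ≤ 5
  · by_cases hb : b ≤ 5
    · interval_cases a <;> interval_cases b <;> simp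
    · have h0 : b ≠ 0 := by omega
      have h1 : b ≠ 1 := by omega
      have h2 : b ≠ 2 := by omega
      have h3 : b ≠ 3 := by omega
      have h4 : b ≠ 4 := by omega
      have h5 : b ≠ 5 := by omega
      have h6 : ¬ b ≤ 3 := by omega
      have h7 : ¬ (4 ≤ a ∧ a / 2 = b / 2) := by omega
      have h8 : ¬ 6 ≤ a := by omega
      simp only [h0, h1, h2, h3, h4, h5, h6, h8, false_or, and_false, false_and, or_false]
      constructor
      · rintro ⟨h, h' | h'⟩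
        · exact ⟨h, h'⟩
        · exact absurd ⟨h'.1, h'.2.2⟩ h7
      · rintro ⟨h, h'⟩
        exact ⟨h, Or.inl h'⟩
  · have h0 : a ≠ 0 := by omega
    have h1 : a ≠ 1 := by omega
    have h2 : a ≠ 2 := by omega
    have h3 : a ≠ 3 := by omega
    have h4 : a ≠ 4 := by omega
    have h5 : a ≠ 5 := by omega
    have h6 : ¬ a ≤ 3 := by omega
    have h7 : 4 ≤ a := by omega
    have h8 : 6 ≤ a := by omega
    have h9 : (4 ≤ b ∧ a / 2 = b / 2) ↔ (6 ≤ b ∧ a / 2 = b / 2) := by omega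
    simp only [h0, h1, h2, h3, h4, h5, h6, h7, h8, false_or, and_false, false_and, or_false,
      true_and, h9]

lemma edges_eq (n : ℕ) (h8 : 8 ≤ n) : (G n).edgeSet.ncard = (H n).edgeSet.ncard := by
  obtain ⟨w1, hw1⟩ : ∃ w : Fin n, w.val = 1 := ⟨⟨1, by omega⟩, rfl⟩
  obtain ⟨w2, hw2⟩ : ∃ w : Fin n, w.val = 2 := ⟨⟨2, by omega⟩, rfl⟩
  obtain ⟨w3, hw3⟩ : ∃ w : Fin n, w.val = 3 := ⟨⟨3, by omega⟩, rfl⟩
  obtain ⟨w4, hw4⟩ : ∃ w : Fin n, w.val = 4 := ⟨⟨4, by omega⟩, rfl⟩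
  obtain ⟨w5, hw5⟩ : ∃ w : Fin n, w.val = 5 := ⟨⟨5, by omega⟩, rfl⟩
  have hG : (G n).edgeSet = (C n).edgeSet ∪
      (({s(w1, w2), s(w1, w3), s(w1, w4), s(w1, w5)} : Finset (Sym2 (Fin n))) :
        Set (Sym2 (Fin n))) := by
    ext e
    induction e with
    | h x y =>
      simp only [SimpleGraph.mem_edgeSet, Set.mem_union, Finset.coe_insert, Finset.coe_singleton,
        Set.mem_insert_iff, Set.mem_singleton_iff, Sym2.eq_iff, G, C, Fin.ext_iff, ne_eq, hw1, hw2,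
        hw3, hw4, hw5]
      exact keyG x.val y.val
  have hH : (H n).edgeSet = (C n).edgeSet ∪
      (({s(w1, w2), s(w1, w3), s(w2, w3), s(w4, w5)} : Finset (Sym2 (Fin n))) :
        Set (Sym2 (Fin n))) := by
    ext e
    induction e with
    | h x y =>
      simp only [SimpleGraph.mem_edgeSet, Set.mem_union, Finset.coe_insert, Finset.coe_singleton,
        Set.mem_insert_iff, Set.mem_singleton_iff, Sym2.eq_iff, H, C, Fin.ext_iff, ne_eq, hw1, hw2,
        hw3, hw4, hw5]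
      exact keyH x.val y.val
  rw [hG, hH, Set.ncard_union_eq, Set.ncard_union_eq, Set.ncard_coe_finset, Set.ncard_coe_finset]
  · congr 1
    rw [Finset.card_insert_of_notMem, Finset.card_insert_of_notMem, Finset.card_insert_of_notMem,
      Finset.card_singleton, Finset.card_insert_of_notMem, Finset.card_insert_of_notMem,
      Finset.card_insert_of_notMem, Finset.card_singleton]
    all_goals
      simp only [Finset.mem_insert, Finset.mem_singleton, Sym2.eq_iff, Fin.ext_iff]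
      omega
  all_goals
    rw [Set.disjoint_left]
    intro e
    induction e with
    | h x y =>
      simp only [SimpleGraph.mem_edgeSet, Finset.coe_insert, Finset.coe_singleton,
        Set.mem_insert_iff, Set.mem_singleton_iff, Sym2.eq_iff, C, Fin.ext_iff, ne_eq, hw1, hw2,
        hw3, hw4, hw5]
      rintro ⟨-, h⟩ h'
      have h0 : x.val ≠ 0 := by rintro h0; rw [h0] at h'; omega
      have h1 : y.val ≠ 0 := by rintro h0; rw [h0] at h'; omega
      have h2 : x.val ≤ 5 := by omega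
      omega

lemma not_iso (n : ℕ) (h8 : 8 ≤ n) : ¬ Nonempty (G n ≃g H n) := by
  rintro ⟨e⟩
  obtain ⟨w0, hw0⟩ : ∃ w : Fin n, w.val = 0 := ⟨⟨0, by omega⟩, rfl⟩
  obtain ⟨w1, hw1⟩ : ∃ w : Fin n, w.val = 1 := ⟨⟨1, by omega⟩, rfl⟩
  obtain ⟨w2, hw2⟩ : ∃ w : Fin n, w.val = 2 := ⟨⟨2, by omega⟩, rfl⟩
  obtain ⟨w3, hw3⟩ : ∃ w : Fin n, w.val = 3 := ⟨⟨3, by omega⟩, rfl⟩
  have hA : ∀ x y : Fin n, x.val ≤ 3 → y.val ≤ 3 → x.val ≠ y.val →
      (G n).Adj (e.symm x) (e.symm y) := by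
    intro x y hx hy hxy
    rw [e.symm.map_adj_iff]
    exact ⟨fun h => hxy (congrArg Fin.val h), by omega⟩
  have h01 := hA w0 w1 (by omega) (by omega) (by omega)
  have h02 := hA w0 w2 (by omega) (by omega) (by omega)
  have h03 := hA w0 w3 (by omega) (by omega) (by omega)
  have h12 := hA w1 w2 (by omega) (by omega) (by omega)
  have h13 := hA w1 w3 (by omega) (by omega) (by omega)
  have h23 := hA w2 w3 (by omega) (by omega) (by omega)
  have hne : ∀ x y : Fin n, (G n).Adj x y → x.val ≠ y.val := fun x y h h' => h.1 (Fin.ext h')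
  have d01 := hne _ _ h01
  have d02 := hne _ _ h02
  have d03 := hne _ _ h03
  have d12 := hne _ _ h12
  have d13 := hne _ _ h13
  have d23 := hne _ _ h23
  by_cases h0 : (e.symm w0).val = 0
  · exact no_triangle _ _ _ (by omega) (by omega) (by omega) h12 h23 h13
  by_cases h1 : (e.symm w1).val = 0
  · exact no_triangle _ _ _ (by omega) (by omega) (by omega) h02 h23 h03
  by_cases h2 : (e.symm w2).val = 0
  · exact no_triangle _ _ _ (by omega) (by omega) (by omega) h01 h13 h03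
  exact no_triangle _ _ _ h0 h1 h2 h01 h12 h02

/-- For every even `n ≥ 8` some graph in `SAT(n, K_3^3)` is not isomorphic to `H_n`. -/
theorem result (n : ℕ) (hn : Even n) (h8 : 8 ≤ n) :
    (∃ K : SimpleGraph (Fin n), InSAT K33 K ∧ ¬ Nonempty (K ≃g H n)) ∧
    IsSaturated K33 (G n) ∧ (G n).edgeSet.ncard = (H n).edgeSet.ncard ∧
      ¬ Nonempty (G n ≃g H n) := by
  refine ⟨?_, saturated n hn h8, edges_eq n h8, not_iso n h8⟩
  have hmem : (G n).edgeSet.ncard ∈ {k : ℕ | ∃ K : SimpleGraph (Fin n), IsSaturated K33 K ∧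
      K.edgeSet.ncard = k} := ⟨G n, saturated n hn h8, rfl⟩
  have hle : sat n K33 ≤ (G n).edgeSet.ncard := Nat.sInf_le hmem
  rcases hle.lt_or_eq with hlt | heq
  · obtain ⟨K, hK, hKc⟩ := Nat.sInf_mem ⟨_, hmem⟩
    refine ⟨K, ⟨hK, hKc⟩, ?_⟩
    rintro ⟨e⟩
    have h1 : K.edgeSet.ncard = (H n).edgeSet.ncard := by
      have := Nat.card_congr e.mapEdgeSet
      simpa [Set.ncard] using this
    rw [← edges_eq n h8] at h1
    have h2 : K.edgeSet.ncard = sat n K33 := hKc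
    omega
  · exact ⟨G n, ⟨saturated n hn h8, heq.symm⟩, not_iso n h8⟩

end Pool.Agent.Results.MP_645dd0_co.NotUnique
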